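import Pool.Agent.H78.XQ.Targets

/-!
A fair coin: the acceptance probability of the mixture of two algorithms.
-/

set_option autoImplicit false

namespace Pool.Agent.H2.XQ

open Pool.Agent.H78.XQ
open scoped Matrix

theorem mix_state (A B : XAlg) (O : List Bool → Bool) (t : ℕ) :
    (Pool.Agent.H78.XQ.mix A B).state O t =
      Sum.elim (fun i => A.state O t i / ((√2 : ℝ) : ℂ)) fun i => B.state O t i / ((√2 : ℝ) : ℂ) := by
  induction t with
  | zero =>
    have h1 : (Pool.Agent.H78.XQ.mix A B).state O 0 =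
        Matrix.fromBlocks (A.U 0) 0 0 (B.U 0) *ᵥ
          Sum.elim (fun i => A.init i / ((√2 : ℝ) : ℂ)) fun i => B.init i / ((√2 : ℝ) : ℂ) := rfl
    rw [h1, Matrix.fromBlocks_mulVec]
    funext i
    rcases i with i | i
    · simp only [Sum.elim_inl, Matrix.zero_mulVec, add_zero]
      have h2 : A.state O 0 i = (A.U 0 *ᵥ A.init) i := rfl
      rw [h2]
      simp only [Matrix.mulVec, dotProduct, Function.comp, Sum.elim_inl]
      rw [Finset.sum_div]
      exact Finset.sum_congr rfl fun j _ => by ring
    · simp only [Sum.elim_inr, Matrix.zero_mulVec, zero_add]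
      have h2 : B.state O 0 i = (B.U 0 *ᵥ B.init) i := rfl
      rw [h2]
      simp only [Matrix.mulVec, dotProduct, Function.comp, Sum.elim_inr]
      rw [Finset.sum_div]
      exact Finset.sum_congr rfl fun j _ => by ring
  | succ t ih =>
    have h1 : (Pool.Agent.H78.XQ.mix A B).state O (t + 1) =
        Matrix.fromBlocks (A.U (t + 1)) 0 0 (B.U (t + 1)) *ᵥ
          fun i => (Pool.Agent.H78.XQ.mix A B).phase O i * (Pool.Agent.H78.XQ.mix A B).state O t i := rfl
    have h3 : (fun i => (Pool.Agent.H78.XQ.mix A B).phase O i *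
        (Pool.Agent.H78.XQ.mix A B).state O t i) =
        Sum.elim (fun i => A.phase O i * A.state O t i / ((√2 : ℝ) : ℂ))
          fun i => B.phase O i * B.state O t i / ((√2 : ℝ) : ℂ) := by
      rw [ih]
      funext i
      rcases i with i | i
      · have h4 : (Pool.Agent.H78.XQ.mix A B).phase O (Sum.inl i) = A.phase O i := rfl
        rw [h4]
        simp only [Sum.elim_inl]
        ring
      · have h4 : (Pool.Agent.H78.XQ.mix A B).phase O (Sum.inr i) = B.phase O i := rfl
        rw [h4]
        simp only [Sum.elim_inr]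
        ring
    refine h1.trans ((congrArg (fun z : A.basis ⊕ B.basis → ℂ =>
      Matrix.fromBlocks (A.U (t + 1)) 0 0 (B.U (t + 1)) *ᵥ z) h3).trans ?_)
    rw [Matrix.fromBlocks_mulVec]
    funext i
    rcases i with i | i
    · simp only [Sum.elim_inl, Matrix.zero_mulVec, add_zero]
      have h2 : A.state O (t + 1) i =
        (A.U (t + 1) *ᵥ fun i => A.phase O i * A.state O t i) i := rfl
      rw [h2]
      simp only [Matrix.mulVec, dotProduct, Function.comp, Sum.elim_inl]
      rw [Finset.sum_div]
      exact Finset.sum_congr rfl fun j _ => by ring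
    · simp only [Sum.elim_inr, Matrix.zero_mulVec, zero_add]
      have h2 : B.state O (t + 1) i =
        (B.U (t + 1) *ᵥ fun i => B.phase O i * B.state O t i) i := rfl
      rw [h2]
      simp only [Matrix.mulVec, dotProduct, Function.comp, Sum.elim_inr]
      rw [Finset.sum_div]
      exact Finset.sum_congr rfl fun j _ => by ring

theorem mix : T_MIX := by
  intro A B hT O
  have h2 : (√2 : ℝ) ^ 2 = 2 := Real.sq_sqrt (by norm_num)
  have h1 : ∀ x : ℂ, ‖x / ((√2 : ℝ) : ℂ)‖ ^ 2 = ‖x‖ ^ 2 / 2 := by
    intro x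
    rw [norm_div, div_pow, Complex.norm_real, Real.norm_eq_abs, sq_abs, h2]
  have h3 : (Pool.Agent.H78.XQ.mix A B).prob O =
      ∑ i ∈ A.acc.disjSum B.acc, ‖(Pool.Agent.H78.XQ.mix A B).state O A.T i‖ ^ 2 := rfl
  rw [h3, mix_state, Finset.sum_disjSum]
  simp only [Sum.elim_inl, Sum.elim_inr, h1]
  rw [← Finset.sum_div, ← Finset.sum_div]
  unfold XAlg.prob
  rw [← hT]
  ring

end Pool.Agent.H2.XQ
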